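import Pool.Agent.BoltzM.Spec.Energy
import Pool.Agent.BoltzM.Coll.GD
import Pool.Agent.BoltzM.C3.Main

/-! The estimate for the one-sided operator in terms of the collision interface. -/

set_option autoImplicit false

open MeasureTheory Pool.Agent.BoltzM.BoltzC

noncomputable section

namespace Pool.Agent.BoltzM.Damp

variable [Dim]

lemma G1_eq {Q : CollOp} (hQ : Q.Real) (a f : SV) : Q.G1 a f = Coll.GamS a f := by
  ext v
  rw [hQ.1, Coll.GamS_apply]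

/-- only the weighted supremum of `sqM * a` multiplies the dissipation -/
theorem gd_real {Q : CollOp} (hQ : Q.Real) : ∃ C0 C1 : ℝ, 0 < C0 ∧ 0 < C1 ∧
    ∀ (a f g : SV) (e : ℝ), (∀ w, (1 + ‖w‖) ^ (2 * pN) * |sqM w * a w| ≤ e) →
      |ip (Q.G1 a f) g| ≤ C0 * e * (Q.dq f + Q.dq g) + C1 * √(nA (pN + dd + 1) a) *
        ((∫ v, (1 + ‖v‖) ^ 2 * f v ^ 2) + ∫ v, (1 + ‖v‖) ^ 2 * g v ^ 2) := by
  obtain ⟨C0, C1, h0, h1, h⟩ := Coll.gd_SV C3.c3
  refine ⟨C0, C1, h0, h1, fun a f g e he => ?_⟩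
  have h2 := h a f g e he
  rw [Coll.ip_LS_self, Coll.ip_LS_self] at h2
  rwa [G1_eq hQ, CollOp.dq, CollOp.dq, hQ.2, hQ.2]

end Pool.Agent.BoltzM.Damp
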