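import Pool.Agent.BoltzM.Gain.Gam
import Pool.Agent.BoltzM.Solver.VOps

/-! The pointwise gain from the damping, `DampStmt`. -/

set_option autoImplicit false

open MeasureTheory Pool.Agent.BoltzM.BoltzC Finset

noncomputable section

namespace Pool.Agent.BoltzM.Damp

open Gain Solver

variable [Dim]

/-- The quadratic form of the damping weight. -/
def d8 (f : SV) : ℝ := ip (Jw 4 f) f

lemma Jw_four (f : SV) (v : E) : Jw 4 f v = (1 + ‖v‖ ^ 2) ^ 4 * f v := by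
  rw [Jw_apply, show (4 : ℝ) = ((4 : ℕ) : ℝ) by norm_num, Real.rpow_natCast]

lemma d8_eq (f : SV) : d8 f = ∫ v, (1 + ‖v‖ ^ 2) ^ 4 * f v ^ 2 := by
  rw [d8, ip_def]
  refine integral_congr_ae (Filter.Eventually.of_forall fun v => ?_)
  simp only [Jw_four]
  ring

lemma d8_nonneg (f : SV) : 0 ≤ d8 f := by
  rw [d8_eq]
  exact integral_nonneg fun v => by positivity

lemma integrable_d8 (f : SV) : Integrable fun v => (1 + ‖v‖ ^ 2) ^ 4 * f v ^ 2 :=
  (integrable_mul (Jw 4 f) f).congr (Filter.Eventually.of_forall fun v => by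
    simp only [Jw_four]; ring)

lemma mulC_sum {n : ℕ} {ι : Type*} (S : Finset ι) {A : ι → SV →L[ℝ] SV}
    (h : ∀ i, MulC n (A i)) : MulC n (∑ i ∈ S, A i) := by
  classical
  induction S using Finset.induction_on with
  | empty => simpa using (MulC.base (n := n) [] (Nat.zero_le _)).smul 0
  | insert i S hi ih => rw [sum_insert hi]; exact (h i).add ih

lemma mulC_Jw (n : ℕ) : MulC (2 * n) (Jw n) := by
  induction n with
  | zero =>
    have e : Jw ((0 : ℕ) : ℝ) = mulW [] := by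
      ext f v
      simp
    rw [e]; exact .base [] le_rfl
  | succ n ih =>
    have e : Jw ((n + 1 : ℕ) : ℝ) = Jw n + ∑ i, (mulV i).comp ((mulV i).comp (Jw n)) := by
      ext f v
      have h : ‖v‖ ^ 2 = ∑ i, v i * v i := by
        rw [EuclideanSpace.norm_sq_eq]
        exact sum_congr rfl fun i _ => by rw [Real.norm_eq_abs, sq_abs, sq]
      rw [add_apply, add_apply, _root_.sum_apply, _root_.sum_apply]
      simp only [ContinuousLinearMap.comp_apply, mulV_apply, Jw_apply, Real.rpow_natCast,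
        ← mul_assoc, ← sum_mul, ← h]
      ring
    rw [e]
    exact (ih.mono (by omega)).add (mulC_sum _ fun i => (ih.comp i).comp i)

lemma mulC_Jw_four : MulC 8 (Jw 4) := by
  have := mulC_Jw 4
  rwa [Nat.cast_ofNat] at this

lemma abs_ip_mulW_le (α : List Ix) (hα : α.length ≤ 8) (f h : SV) :
    |ip (mulW α f) h| ≤ 16 * √(d8 f) * √(d8 h) := by
  have e2 : ∀ (g : SV) (v : E), Jw 2 g v = (1 + ‖v‖ ^ 2) ^ 2 * g v := fun g v => by
    rw [Jw_apply, Real.rpow_two]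
  have e3 : ∀ (g : SV) (v : E), Jw (-2) g v = ((1 + ‖v‖ ^ 2) ^ 2)⁻¹ * g v := fun g v => by
    rw [Jw_apply, Real.rpow_neg (by positivity), Real.rpow_two]
  have h1 : ip (mulW α f) h = ip (Jw (-2) (mulW α f)) (Jw 2 h) := by
    rw [ip_def, ip_def]
    refine integral_congr_ae (Filter.Eventually.of_forall fun v => ?_)
    simp only [e2, e3]
    field_simp
  have h2 : ip (Jw 2 h) (Jw 2 h) = d8 h := by
    rw [ip_def, d8_eq]
    refine integral_congr_ae (Filter.Eventually.of_forall fun v => ?_)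
    simp only [e2]
    ring
  have h3 : ip (Jw (-2) (mulW α f)) (Jw (-2) (mulW α f)) ≤ 16 ^ 2 * d8 f := by
    rw [ip_self_eq, d8_eq, ← integral_const_mul]
    refine integral_mono_of_nonneg (Filter.Eventually.of_forall fun v => sq_nonneg _)
      ((integrable_d8 f).const_mul _) (Filter.Eventually.of_forall fun v => ?_)
    have h0 := norm_nonneg v
    have a1 : (1 + ‖v‖) ^ 2 ≤ 2 * (1 + ‖v‖ ^ 2) := by nlinarith [sq_nonneg (‖v‖ - 1)]
    have a2 : |mulW α f v| ≤ 16 * (1 + ‖v‖ ^ 2) ^ 4 * |f v| := by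
      refine (abs_mulW_le α f v).trans (mul_le_mul_of_nonneg_right ?_ (abs_nonneg _))
      calc (1 + ‖v‖) ^ α.length ≤ (1 + ‖v‖) ^ 8 := pow_le_pow_right₀ (by linarith) hα
        _ = ((1 + ‖v‖) ^ 2) ^ 4 := by ring
        _ ≤ (2 * (1 + ‖v‖ ^ 2)) ^ 4 := by gcongr
        _ = _ := by ring
    simp only [e3]
    rw [mul_pow, ← sq_abs (mulW α f v), ← sq_abs (f v)]
    calc _ ≤ ((1 + ‖v‖ ^ 2) ^ 2)⁻¹ ^ 2 * (16 * (1 + ‖v‖ ^ 2) ^ 4 * |f v|) ^ 2 := by gcongr
      _ = _ := by field_simp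
  rw [h1]
  refine (abs_ip_le _ _).trans ?_
  rw [h2]
  refine mul_le_mul_of_nonneg_right ((Real.sqrt_le_sqrt h3).trans (le_of_eq ?_))
    (Real.sqrt_nonneg _)
  rw [Real.sqrt_mul (by positivity), Real.sqrt_sq (by norm_num)]

lemma mulC_bd {B : SV →L[ℝ] SV} (hB : MulC 8 B) :
    ∃ C : ℝ, 0 ≤ C ∧ ∀ f h, |ip (B f) h| ≤ C * √(d8 f) * √(d8 h) := by
  induction hB with
  | base α hα => exact ⟨16, by norm_num, abs_ip_mulW_le α hα⟩
  | add _ _ h1 h2 =>
    obtain ⟨C1, a1, h1⟩ := h1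
    obtain ⟨C2, a2, h2⟩ := h2
    refine ⟨C1 + C2, by positivity, fun f h => ?_⟩
    rw [add_apply, map_add, LinearMap.add_apply]
    refine (abs_add_le _ _).trans ?_
    linarith [h1 f h, h2 f h]
  | smul c _ h1 =>
    obtain ⟨C1, a1, h1⟩ := h1
    refine ⟨|c| * C1, by positivity, fun f h => ?_⟩
    rw [smul_apply, map_smul, LinearMap.smul_apply, smul_eq_mul, abs_mul, mul_assoc, mul_assoc,
      ← mul_assoc C1]
    exact mul_le_mul_of_nonneg_left (h1 f h) (abs_nonneg c)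

/-- Iterated commutators of the damping weight with the creation operators. -/
def Mw : List Ix → SV →L[ℝ] SV
  | [] => Jw 4
  | j :: p => adV j (Mw p)

lemma mulC_Mw (p : List Ix) : MulC 8 (Mw p) := by
  induction p with
  | nil => exact mulC_Jw_four
  | cons j p ih => exact ih.adV j

lemma apW_Jw (w : List Ix) (f : SV) :
    apW w (Jw 4 f) = ((splits w).map fun p => Mw p.1 (apW p.2 f)).sum := by
  have leib : ∀ j p g, ap j (Mw p g) = Mw (j :: p) g + Mw p (ap j g) := fun j p g => by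
    rw [Mw, adV_apply, sub_add_cancel]
  induction w with
  | nil => simp [splits, Mw]
  | cons j w ih =>
    rw [apW_cons, ih, map_list_sum]
    simp [splits, Function.comp_def, leib, List.sum_map_add]

lemma Mw_unif (n : ℕ) : ∃ C : ℝ, 0 ≤ C ∧ ∀ (p : List Ix), p.length ≤ n → ∀ f h,
    |ip (Mw p f) h| ≤ C * √(d8 f) * √(d8 h) := by
  choose C hC h using fun p => mulC_bd (mulC_Mw p)
  refine ⟨∑ m ∈ range (n + 1), ∑ w ∈ words m, C w,
    sum_nonneg fun _ _ => sum_nonneg fun _ _ => hC _, fun w hw f g => (h w f g).trans ?_⟩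
  refine mul_le_mul_of_nonneg_right (mul_le_mul_of_nonneg_right ?_ (Real.sqrt_nonneg _))
    (Real.sqrt_nonneg _)
  refine le_trans ?_ (single_le_sum (f := fun m => ∑ w ∈ words m, C w)
    (fun _ _ => sum_nonneg fun _ _ => hC _) (mem_range.2 (show w.length < n + 1 by omega)))
  exact single_le_sum (f := C) (fun _ _ => hC _) (mem_words.2 rfl)

lemma ip_Ds_RR (f g : SV) (m : ℕ) :
    ip (Ds f) (RR m g) = ∑ w ∈ words m, ((splits w).map fun p =>
      ip (Mw p.1 (apW p.2 (f - PP f))) (apW w (g - PP g))).sum := by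
  have h1 : ip (Ds f) (RR m g) = ip (Jw 4 (f - PP f)) (RR m (g - PP g)) := by
    rw [Ds_apply, map_sub, LinearMap.sub_apply, ip_PP, PP_RR, map_sub (RR m), map_sub (ip _)]
  rw [h1, ip_RR]
  exact sum_congr rfl fun w _ => by rw [apW_Jw, ip_list_sum]

/-- Damping density of a function. -/
def Y8 (n : ℕ) (θ : ℝ) (σ : E3 → ℝ) (G : E3 → SV) (x : E3) : ℝ :=
  lev n θ (σ x) fun u m => ∑ w ∈ words m, d8 (apW w (dXw u G x))

lemma single_le_Y8 {n : ℕ} {θ : ℝ} (hθ : 0 ≤ θ) (σ : E3 → ℝ) (G : E3 → SV) (x : E3)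
    {u w : List Ix} (hu : u.length + w.length ≤ n) :
    θ ^ (u.length + w.length) * σ x ^ (2 * u.length) * d8 (apW w (dXw u G x)) ≤
      Y8 n θ σ G x := by
  refine le_trans ?_ (single_le_lev hθ (φ := fun u m => ∑ w ∈ words m, d8 (apW w (dXw u G x)))
    (fun _ _ => sum_nonneg fun _ _ => d8_nonneg _) hu)
  refine mul_le_mul_of_nonneg_left ?_
    (mul_nonneg (pow_nonneg hθ _) (Even.pow_nonneg (by simp) _))
  exact single_le_sum (f := fun w => d8 (apW w (dXw u G x))) (fun _ _ => d8_nonneg _)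
    (mem_words.2 rfl)

lemma Y8_nonneg {n : ℕ} {θ : ℝ} (hθ : 0 ≤ θ) (σ : E3 → ℝ) (G : E3 → SV) (x : E3) :
    0 ≤ Y8 n θ σ G x :=
  le_trans (by simpa using d8_nonneg _) (single_le_Y8 hθ σ G x (u := []) (w := []) (by simp))

lemma sqrt_d8_le {n : ℕ} {τ : ℝ} (hτ : 0 ≤ τ) {σ : E3 → ℝ} (hσ : ∀ x, 0 < σ x)
    (G : E3 → SV) (x : E3) {u w : List Ix} (hu : u.length + w.length ≤ n) :
    τ ^ (u.length + w.length) * σ x ^ u.length * √(d8 (apW w (dXw u G x))) ≤
      √(Y8 n (τ ^ 2) σ G x) := by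
  have := hσ x
  refine mul_sqrt_le (by positivity) (le_of_eq_of_le ?_ (single_le_Y8 (sq_nonneg τ) σ G x hu))
  ring

omit [Dim] in
lemma off_le {τ C Kb k Y su s₀ s₂ dk t b f : ℝ} {α β : ℕ} (hβ : β < α) (hτ : 0 ≤ τ)
    (hτ1 : τ ≤ 1) (hC : 0 ≤ C) (h2 : 0 ≤ su) (h3 : 0 ≤ s₀) (h4 : 0 ≤ s₂) (hK : 0 ≤ Kb) (hk : 0 ≤ k)
    (hY : 0 ≤ Y) (_hb : 0 ≤ b) (hf : 0 ≤ f)
    (e1 : s₀ * |dk| ≤ Kb * k) (e2 : |t| ≤ C * b * f) (e3 : τ ^ β * s₂ * b ≤ √Y)
    (e4 : τ ^ α * su * f ≤ √Y) :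
    |(τ ^ 2) ^ α * (su * (s₀ * s₂)) * dk * t| ≤ Kb * C * (τ * k * Y) := by
  have h5 : τ ^ α ≤ τ ^ β * τ := by
    rw [← pow_succ]; exact pow_le_pow_of_le_one hτ hτ1 hβ
  rw [abs_mul, abs_mul, abs_of_nonneg (show 0 ≤ (τ ^ 2) ^ α * (su * (s₀ * s₂)) by positivity)]
  calc _ = (s₀ * |dk|) * τ ^ α * (τ ^ α * su * s₂) * |t| := by ring
    _ ≤ (Kb * k) * (τ ^ β * τ) * (τ ^ α * su * s₂) * (C * b * f) := by gcongr
    _ = Kb * C * (τ * k * ((τ ^ β * s₂ * b) * (τ ^ α * su * f))) := by ring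
    _ ≤ Kb * C * (τ * k * (√Y * √Y)) := by gcongr
    _ = _ := by rw [Real.mul_self_sqrt hY]

theorem dampStmt : DampStmt := by
  intro K n
  obtain ⟨C, hC, htri⟩ := Mw_unif n
  obtain ⟨Kb, hKb⟩ : ∃ Kb : ℝ, Kb = ∑ i ∈ range (n + 1), |K i| := ⟨_, rfl⟩
  have hKb0 : 0 ≤ Kb := hKb ▸ sum_nonneg fun _ _ => abs_nonneg _
  obtain ⟨N, hN⟩ : ∃ N : ℝ, N = NL n := ⟨_, rfl⟩
  have hN0 : 0 ≤ N := hN ▸ NL_nonneg n
  obtain ⟨D, hD⟩ : ∃ D : ℝ, D = 2 ^ n * ((dd : ℝ) ^ n * (2 ^ n * (Kb * C))) +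
      (dd : ℝ) ^ n * (2 ^ n * (Kb * C)) := ⟨_, rfl⟩
  have hD0 : 0 ≤ D := by rw [hD]; positivity
  obtain ⟨τ0, hτ0⟩ : ∃ t : ℝ, t = 1 / (2 * (N * D + 1)) := ⟨_, rfl⟩
  have hτ00 : 0 < τ0 := by rw [hτ0]; positivity
  refine ⟨min 1 (τ0 ^ 2), 1 / 2, lt_min one_pos (pow_pos hτ00 2), min_le_left _ _, by norm_num, ?_⟩
  intro θ hθ hθ0 σ k G hk hG hσ hk0 hsym x
  obtain ⟨τ, hτ, rfl⟩ : ∃ τ : ℝ, 0 ≤ τ ∧ θ = τ ^ 2 :=
    ⟨√θ, Real.sqrt_nonneg _, (Real.sq_sqrt hθ.le).symm⟩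
  have hτ1 : τ ≤ 1 := by
    have := hθ0.trans (min_le_left _ _)
    exact (sq_le_one_iff₀ hτ).1 this
  have hτ2 : τ ≤ τ0 :=
    (pow_le_pow_iff_left₀ hτ hτ00.le two_ne_zero).1 (hθ0.trans (min_le_right _ _))
  obtain ⟨h, hh⟩ : ∃ h : E3 → SV, h = fun y => G y - PP (G y) := ⟨_, rfl⟩
  have hd : ∀ u, dXw u G x - PP (dXw u G x) = dXw u h x := fun u => by rw [hh, dXw_micro hG]
  obtain ⟨Y, hY⟩ : ∃ Y : ℝ, Y = Y8 n (τ ^ 2) σ h x := ⟨_, rfl⟩
  have hY0 : 0 ≤ Y := hY ▸ Y8_nonneg (sq_nonneg τ) σ h x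
  have hkx := hk0 x
  have hs := (hσ x).le
  obtain ⟨P, hP⟩ : ∃ P : ℝ, P = τ * k x * Y := ⟨_, rfl⟩
  have hP0 : 0 ≤ P := hP ▸ mul_nonneg (mul_nonneg hτ hkx) hY0
  have t2 : (0 : ℝ) ≤ 2 ^ n := pow_nonneg zero_le_two _
  have t3 : (0 : ℝ) ≤ (dd : ℝ) ^ n := pow_nonneg dr_pos.le _
  have hB0 : 0 ≤ Kb * C * P := mul_nonneg (mul_nonneg hKb0 hC) hP0
  have hB1 := mul_nonneg t2 hB0
  have hB2 := mul_nonneg t3 hB1
  have main : k x * Y8 n (τ ^ 2) σ h x ≤
      bb n (τ ^ 2) σ (fun y => k y • Ds (G y)) G x + NL n * (D * P) := by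
    refine lev_le_add fun u m hu => ?_
    obtain ⟨W, hW⟩ : ∃ W : ℝ, W = (τ ^ 2) ^ (u.length + m) * σ x ^ (2 * u.length) := ⟨_, rfl⟩
    have off : ∀ (q p : List Ix × List Ix) (w : List Ix), w.length = m →
        q.1.length + q.2.length = u.length → p.1.length + p.2.length = w.length →
        q.2.length + p.2.length < u.length + w.length →
        |W * dXw q.1 k x * ip (Mw p.1 (apW p.2 (dXw q.2 h x))) (apW w (dXw u h x))| ≤
          Kb * C * P := by
      intro q p w hw hq hp hlt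
      have hpow : σ x ^ (2 * u.length) =
          σ x ^ u.length * (σ x ^ q.1.length * σ x ^ q.2.length) := by
        rw [← pow_add, ← pow_add]; congr 1; omega
      rw [hW, hpow, hP, ← hw]
      exact off_le hlt hτ hτ1 hC (pow_nonneg hs _) (pow_nonneg hs _) (pow_nonneg hs _) hKb0 hkx
        hY0 (Real.sqrt_nonneg _) (Real.sqrt_nonneg _)
        (hKb ▸ sym_le hk0 hsym (by omega) x) (htri _ (by omega) _ _)
        (hY ▸ sqrt_d8_le hτ hσ h x (by omega)) (hY ▸ sqrt_d8_le hτ hσ h x (by omega))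
    have expand : ∀ q : List Ix × List Ix,
        W * ip (dXw q.1 k x • dXw q.2 (fun y => Ds (G y)) x) (RR m (dXw u G x)) =
        ∑ w ∈ words m, ((splits w).map fun p => W * dXw q.1 k x *
          ip (Mw p.1 (apW p.2 (dXw q.2 h x))) (apW w (dXw u h x))).sum := by
      intro q
      rw [dXw_clm hG Ds]
      simp only [List.sum_map_mul_left]
      rw [← mul_sum, ← hd u, ← hd q.2, ← ip_Ds_RR]
      simp only [map_smul, LinearMap.smul_apply, smul_eq_mul]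
      ring
    rw [← hW, dXw_smul hk (hG.clm Ds), ip_list_sum, ← List.sum_map_mul_left]
    simp only [expand]
    have h1 := abs_sum_splits_sub_le u (f := fun q => ∑ w ∈ words m, ((splits w).map fun p =>
        W * dXw q.1 k x * ip (Mw p.1 (apW p.2 (dXw q.2 h x)))
          (apW w (dXw u h x))).sum) hB2 fun q hq hlt => by
      refine abs_sum_words_le (by omega) hB1 fun w hw => ?_
      refine abs_sum_splits_le' (by omega) hB0 fun p hp => ?_
      exact off q p w hw hq hp (by omega)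
    have h1' : (2 : ℝ) ^ u.length * ((dd : ℝ) ^ n * (2 ^ n * (Kb * C * P))) ≤
        2 ^ n * ((dd : ℝ) ^ n * (2 ^ n * (Kb * C * P))) :=
      mul_le_mul_of_nonneg_right (pow_le_pow_right₀ one_le_two (by omega)) hB2
    have h2 : ∀ w ∈ words m, k x * W * d8 (apW w (dXw u h x)) ≤ ((splits w).map fun p =>
        W * k x * ip (Mw p.1 (apW p.2 (dXw u h x))) (apW w (dXw u h x))).sum +
          2 ^ n * (Kb * C * P) := by
      intro w hw
      rw [mem_words] at hw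
      have h3 := abs_sum_splits_sub_le w (f := fun p => W * k x *
          ip (Mw p.1 (apW p.2 (dXw u h x))) (apW w (dXw u h x))) hB0
        fun p hp hlt => off ([], u) p w hw (by simp) hp (by simpa using hlt)
      have h3' : (2 : ℝ) ^ w.length * (Kb * C * P) ≤ 2 ^ n * (Kb * C * P) :=
        mul_le_mul_of_nonneg_right (pow_le_pow_right₀ one_le_two (by omega)) hB0
      have h4 : ip (Mw [] (apW w (dXw u h x))) (apW w (dXw u h x)) = d8 (apW w (dXw u h x)) := rfl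
      simp only [h4] at h3
      have h8 := (abs_le.1 h3).1
      linarith
    have h3 := sum_le_sum h2
    rw [sum_add_distrib, sum_const, card_words, nsmul_eq_mul, ← mul_sum] at h3
    have h4 : ((dd ^ m : ℕ) : ℝ) * (2 ^ n * (Kb * C * P)) ≤
        (dd : ℝ) ^ n * (2 ^ n * (Kb * C * P)) := by
      refine mul_le_mul_of_nonneg_right ?_ hB1
      push_cast
      exact pow_le_pow_right₀ (by linarith [two_le_dr]) (by omega)
    have h5 := (abs_le.1 h1).1
    simp only [dXw_nil] at h5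
    have h6 : D * P = 2 ^ n * ((dd : ℝ) ^ n * (2 ^ n * (Kb * C * P))) +
        (dd : ℝ) ^ n * (2 ^ n * (Kb * C * P)) := by rw [hD]; ring
    linarith
  have e : y8 n (τ ^ 2) σ G x = Y := by
    rw [hY, y8, Y8]
    simp only [hd, d8]
  rw [e]
  rw [← hY, ← hN] at main
  have h1 : N * D * τ ≤ 1 / 2 := by
    have h2 : τ0 * (2 * (N * D + 1)) = 1 := by rw [hτ0]; field_simp
    have h3 := mul_le_mul_of_nonneg_left hτ2 (mul_nonneg hN0 hD0)
    linarith
  have h2 := mul_le_mul_of_nonneg_right h1 (mul_nonneg hkx hY0)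
  have h3 : N * (D * P) = N * D * τ * (k x * Y) := by rw [hP]; ring
  linarith

end Pool.Agent.BoltzM.Damp
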